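import Mathlib

namespace Pool.Agent.Q280.KB

open Finset

set_option linter.unusedSectionVars false

/-- the sign `(-1)^t` of an element of `ZMod 2` -/
def sgn (t : ZMod 2) : ℤ := if t = 0 then 1 else -1

lemma sgn_add (a b : ZMod 2) : sgn (a + b) = sgn a * sgn b := by
  revert a b; decide

lemma sgn_mul_self (a : ZMod 2) : sgn a * sgn a = 1 := by
  revert a; decide

lemma sgn_eq_one {a : ZMod 2} (h : sgn a = 1) : a = 0 := by
  revert a; decide

lemma sgn_inj {a b : ZMod 2} (h : sgn a = sgn b) : a = b := by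
  revert a b; decide

lemma sgn_le_one (a : ZMod 2) : sgn a ≤ 1 := by
  revert a; decide

lemma add_self' (a : ZMod 2) : a + a = 0 := by
  revert a; decide

lemma addself_fun {ι : Type*} (x : ι → ZMod 2) : x + x = 0 := by
  funext i; exact add_self' (x i)

lemma idem (a : ZMod 2) : a * a = a := by
  revert a; decide

lemma zmod2_cases (a : ZMod 2) : a = 0 ∨ a = 1 := by
  revert a; decide

lemma sum_neg_shift {G : Type*} [Fintype G] [AddCommGroup G] (F : G → ℤ) (g : G)
    (h : ∀ x, F (x + g) = -F x) : ∑ x, F x = 0 := by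
  have h1 : ∑ x, F (x + g) = ∑ x, F x := Equiv.sum_comp (Equiv.addRight g) F
  have h2 : ∑ x, F (x + g) = -∑ x, F x := by
    rw [← Finset.sum_neg_distrib]; exact Finset.sum_congr rfl (fun x _ => h x)
  omega

lemma orth {κ : Type*} [Fintype κ] [DecidableEq κ] (z : κ → ZMod 2) :
    ∑ t : κ → ZMod 2, sgn (∑ i, t i * z i) = if z = 0 then 2 ^ (Fintype.card κ) else 0 := by
  split_ifs with hz
  · subst hz
    simp [sgn]
  · obtain ⟨i, hi⟩ : ∃ i, z i ≠ 0 := by
      by_contra hcon
      push Not at hcon
      exact hz (funext hcon)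
    have hi1 : z i = 1 := by
      rcases zmod2_cases (z i) with h | h
      · exact absurd h hi
      · exact h
    apply sum_neg_shift _ (Pi.single i (1 : ZMod 2))
    intro t
    have : ∑ j, (t + (Pi.single i (1 : ZMod 2) : κ → ZMod 2)) j * z j = ∑ j, t j * z j + 1 := by
      simp only [Pi.add_apply, add_mul, Finset.sum_add_distrib]
      congr 1
      rw [Finset.sum_eq_single i]
      · simp [hi1]
      · intro b _ hb
        simp [Pi.single_apply, hb]
      · intro h; exact absurd (Finset.mem_univ i) h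
    rw [this, sgn_add]
    simp [sgn]

/-- if a sum of signs over a finite type equals the number of terms all signs are `+` -/
lemma all_zero_of_sum {κ : Type*} [Fintype κ] (F : κ → ZMod 2)
    (h : ∑ t, sgn (F t) = Fintype.card κ) : ∀ t, F t = 0 := by
  intro t
  apply sgn_eq_one
  by_contra hne
  have hlt : ∑ t, sgn (F t) < ∑ _t : κ, (1 : ℤ) := by
    apply Finset.sum_lt_sum
    · intro i _; exact sgn_le_one _
    · exact ⟨t, Finset.mem_univ t, lt_of_le_of_ne (sgn_le_one _) hne⟩
  simp at hlt
  omega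

/-! ### the pairing lemma -/

section pairing

variable {m : ℕ} {ι : Type*} [Fintype ι] [DecidableEq ι]

/-- the ordinary Walsh transform -/
def W (f : (ι → ZMod 2) → ZMod 2) (y : ι → ZMod 2) : ℤ :=
  ∑ x, sgn (f x + ∑ i, x i * y i)

/-- the vector that is `τ i` on both members of the `i`-th pair -/
def dv (e : Fin m ⊕ Fin m ≃ ι) (τ : Fin m → ZMod 2) : ι → ZMod 2 :=
  fun j => Sum.elim τ τ (e.symm j)

@[simp] lemma dv_inl (e : Fin m ⊕ Fin m ≃ ι) (τ : Fin m → ZMod 2) (i : Fin m) :
    dv e τ (e (Sum.inl i)) = τ i := by simp [dv]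

@[simp] lemma dv_inr (e : Fin m ⊕ Fin m ≃ ι) (τ : Fin m → ZMod 2) (i : Fin m) :
    dv e τ (e (Sum.inr i)) = τ i := by simp [dv]

lemma sum_pair {M : Type*} [AddCommMonoid M] (e : Fin m ⊕ Fin m ≃ ι) (F : ι → M) :
    ∑ j, F j = ∑ i, (F (e (Sum.inl i)) + F (e (Sum.inr i))) := by
  rw [← Equiv.sum_comp e F, Fintype.sum_sum_type, Finset.sum_add_distrib]

lemma ext_pair (e : Fin m ⊕ Fin m ≃ ι) {x y : ι → ZMod 2}
    (h1 : ∀ i, x (e (Sum.inl i)) = y (e (Sum.inl i)))
    (h2 : ∀ i, x (e (Sum.inr i)) = y (e (Sum.inr i))) : x = y := by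
  funext j
  obtain ⟨s, rfl⟩ := e.surjective j
  rcases s with i | i
  · exact h1 i
  · exact h2 i

lemma inner_dv (e : Fin m ⊕ Fin m ≃ ι) (z : ι → ZMod 2) (τ : Fin m → ZMod 2) :
    ∑ j, z j * dv e τ j = ∑ i, τ i * (z (e (Sum.inl i)) + z (e (Sum.inr i))) := by
  rw [sum_pair e]
  apply Finset.sum_congr rfl
  intro i _
  simp only [dv_inl, dv_inr]
  ring

lemma dv_inj (e : Fin m ⊕ Fin m ≃ ι) {s t : Fin m → ZMod 2} (h : dv e s = dv e t) : s = t := by
  funext i
  have := congrFun h (e (Sum.inl i))
  simpa using this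

lemma pairing (e : Fin m ⊕ Fin m ≃ ι)
    (f g : (ι → ZMod 2) → ZMod 2) (hfg : ∀ y, W f y = 2 ^ m * sgn (g y))
    (v l : ι → ZMod 2) (c : ZMod 2)
    (hg : ∀ τ : Fin m → ZMod 2, g (v + dv e τ) = c + ∑ j, l j * (v + dv e τ) j)
    (τ : Fin m → ZMod 2) : f (l + dv e τ) = c + ∑ j, v j * dv e τ j := by
  -- the double sum
  have hfun : Fintype.card (Fin m → ZMod 2) = 2 ^ m := by simp
  have key : ∑ t : Fin m → ZMod 2, W f (v + dv e t) * sgn (c + ∑ j, l j * (v + dv e t) j)
      = 2 ^ m * 2 ^ m := by
    have : ∀ t : Fin m → ZMod 2,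
        W f (v + dv e t) * sgn (c + ∑ j, l j * (v + dv e t) j) = 2 ^ m := by
      intro t
      rw [hfg, hg t, mul_assoc, sgn_mul_self, mul_one]
    rw [Finset.sum_congr rfl (fun t _ => this t)]
    simp
  have key2 : ∑ t : Fin m → ZMod 2, W f (v + dv e t) * sgn (c + ∑ j, l j * (v + dv e t) j)
      = ∑ x : ι → ZMod 2, sgn (f x + (c + ∑ j, (x j + l j) * v j)) *
          ∑ t : Fin m → ZMod 2, sgn (∑ i, t i *
            ((x + l) (e (Sum.inl i)) + (x + l) (e (Sum.inr i)))) := by
    unfold W
    simp_rw [Finset.sum_mul, Finset.mul_sum]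
    rw [Finset.sum_comm]
    apply Finset.sum_congr rfl
    intro x _
    apply Finset.sum_congr rfl
    intro t _
    rw [← sgn_add, ← sgn_add]
    congr 1
    rw [← inner_dv e (x + l) t]
    have e1 : ∑ i, x i * (v + dv e t) i = ∑ i, x i * v i + ∑ i, x i * dv e t i := by
      rw [← Finset.sum_add_distrib]; exact Finset.sum_congr rfl (fun i _ => by simp [mul_add])
    have e2 : ∑ i, l i * (v + dv e t) i = ∑ i, l i * v i + ∑ i, l i * dv e t i := by
      rw [← Finset.sum_add_distrib]; exact Finset.sum_congr rfl (fun i _ => by simp [mul_add])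
    have e3 : ∑ i, (x + l) i * dv e t i = ∑ i, x i * dv e t i + ∑ i, l i * dv e t i := by
      rw [← Finset.sum_add_distrib]; exact Finset.sum_congr rfl (fun i _ => by simp [add_mul])
    have e4 : ∑ i, (x i + l i) * v i = ∑ i, x i * v i + ∑ i, l i * v i := by
      rw [← Finset.sum_add_distrib]; exact Finset.sum_congr rfl (fun i _ => by simp [add_mul])
    rw [e1, e2, e3, e4]
    ring
  rw [key2] at key
  simp_rw [orth] at key
  simp only [Fintype.card_fin] at key
  -- reindex
  have key3 : ∑ x : ι → ZMod 2, sgn (f x + (c + ∑ j, (x j + l j) * v j)) *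
      (if (fun i => (x + l) (e (Sum.inl i)) + (x + l) (e (Sum.inr i))) = (0 : Fin m → ZMod 2)
        then (2 : ℤ) ^ m else 0)
      = 2 ^ m * ∑ t : Fin m → ZMod 2,
          sgn (f (l + dv e t) + (c + ∑ j, v j * dv e t j)) := by
    rw [Finset.mul_sum]
    symm
    apply Finset.sum_bij_ne_zero (fun t _ _ => l + dv e t)
    · intro t _ _; exact Finset.mem_univ _
    · intro t₁ _ _ t₂ _ _ h
      exact dv_inj e (add_left_cancel h)
    · intro x _ hx
      have hx' : (fun i => (x + l) (e (Sum.inl i)) + (x + l) (e (Sum.inr i))) =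
          (0 : Fin m → ZMod 2) := by
        by_contra hcon
        rw [if_neg hcon] at hx
        simp at hx
      have hxe : l + dv e (fun i => (x + l) (e (Sum.inl i))) = x := by
        have hx1 : dv e (fun i => (x + l) (e (Sum.inl i))) = x + l := by
          apply ext_pair e
          · intro i; simp
          · intro i
            simp only [dv_inr]
            have := congrFun hx' i
            simp only [Pi.zero_apply] at this
            have h2 := add_self' ((x + l) (e (Sum.inr i)))
            exact add_right_cancel (this.trans h2.symm)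
        rw [hx1, add_comm x l, ← add_assoc, addself_fun, zero_add]
      refine ⟨fun i => (x + l) (e (Sum.inl i)), Finset.mem_univ _, ?_, hxe⟩
      have : sgn (f (l + dv e (fun i => (x + l) (e (Sum.inl i)))) +
        (c + ∑ j, v j * dv e (fun i => (x + l) (e (Sum.inl i))) j)) ≠ 0 := by
        unfold sgn; split_ifs <;> norm_num
      exact mul_ne_zero (by positivity) this
    · intro t _ _
      have h1 : (fun i => (l + dv e t + l) (e (Sum.inl i)) + (l + dv e t + l) (e (Sum.inr i))) =
          (0 : Fin m → ZMod 2) := by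
        funext i
        simp only [Pi.add_apply, dv_inl, dv_inr, Pi.zero_apply]
        have a1 := add_self' (l (e (Sum.inl i)))
        have a2 := add_self' (l (e (Sum.inr i)))
        have a3 := add_self' (t i)
        linear_combination a1 + a2 + a3
      rw [if_pos h1, mul_comm]
      congr 3
      congr 1
      apply Finset.sum_congr rfl
      intro j _
      have a1 := add_self' (l j)
      simp only [Pi.add_apply]
      linear_combination (-v j) * a1
  rw [key3] at key
  have hpos : (2 : ℤ) ^ m ≠ 0 := by positivity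
  have key4 := mul_left_cancel₀ hpos key
  have := all_zero_of_sum (fun t : Fin m → ZMod 2 =>
    f (l + dv e t) + (c + ∑ j, v j * dv e t j)) (by rw [key4, hfun]; push_cast; rfl) τ
  have h2 := add_self' (c + ∑ j, v j * dv e τ j)
  exact add_right_cancel (this.trans h2.symm)

end pairing

end Pool.Agent.Q280.KB
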