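import Mathlib
import Pool.Agent.Q280.KB.Basic

namespace Pool.Agent.Q280.KB

open Finset

set_option linter.unusedSectionVars false

variable {ι : Type*} [Fintype ι] [DecidableEq ι]

/-- functions on a layer killed by all products of two disjoint swaps are affine -/
lemma layer_affine (G : Finset ι → ZMod 2)
    (hG : ∀ (S : Finset ι) (a b c d : ι), a ∈ S → c ∈ S → b ∉ S → d ∉ S → a ≠ c → b ≠ d →
      G S + G (insert b (S.erase a)) + G (insert d (S.erase c)) +
        G (insert b (insert d ((S.erase a).erase c))) = 0) (w : ℕ) :
    ∃ (l : ι → ZMod 2) (c : ZMod 2), ∀ S : Finset ι, S.card = w → G S = c + ∑ i ∈ S, l i := by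
  classical
  by_cases hex : ∃ S0 : Finset ι, S0.card = w
  swap
  · exact ⟨0, 0, fun S hS => absurd ⟨S, hS⟩ hex⟩
  obtain ⟨S0, hS0⟩ := hex
  by_cases h1 : S0.Nonempty
  swap
  · rw [Finset.not_nonempty_iff_eq_empty] at h1
    subst h1
    refine ⟨0, G ∅, fun S hS => ?_⟩
    have : S = ∅ := by rw [← Finset.card_eq_zero, hS, ← hS0]; rfl
    subst this; simp
  by_cases h2 : ∃ q, q ∉ S0
  swap
  · push Not at h2
    have hu : S0 = univ := by ext x; simp [h2 x]
    refine ⟨0, G univ, fun S hS => ?_⟩
    have : S = univ := by
      rw [← Finset.card_eq_iff_eq_univ, hS, ← hS0, hu]; rfl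
    subst this; simp
  obtain ⟨p, hp⟩ := h1
  obtain ⟨q, hq⟩ := h2
  -- definition of the coefficients
  let lq : ZMod 2 := G (insert q (S0.erase p)) + G S0
  let l : ι → ZMod 2 := fun i => if i ∈ S0 then lq + G (insert q (S0.erase i)) + G S0
    else G (insert i (S0.erase p)) + G S0
  refine ⟨l, G S0 + ∑ i ∈ S0, l i, ?_⟩
  have main : ∀ r : ℕ, ∀ S : Finset ι, S.card = w → (S0 \ S).card = r →
      G S = G S0 + ∑ i ∈ S0, l i + ∑ i ∈ S, l i := by
    intro r
    induction r using Nat.strong_induction_on with
    | _ r ih =>
      intro S hS hr
      have hcard : (S \ S0).card = r := by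
        have e1 := Finset.card_sdiff_add_card_inter S0 S
        have e2 := Finset.card_sdiff_add_card_inter S S0
        rw [Finset.inter_comm] at e2
        omega
      rcases Nat.lt_or_ge r 1 with hr0 | hr1
      · -- r = 0
        have hr0' : r = 0 := by omega
        subst hr0'
        rw [Finset.card_eq_zero, Finset.sdiff_eq_empty_iff_subset] at hr hcard
        have : S = S0 := Finset.Subset.antisymm hcard hr
        subst this
        rw [add_assoc, add_self', add_zero]
      rcases Nat.lt_or_ge r 2 with hr2 | hr2
      · -- r = 1
        have hr1' : r = 1 := by omega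
        subst hr1'
        rw [Finset.card_eq_one] at hr hcard
        obtain ⟨a, ha⟩ := hr
        obtain ⟨b, hb⟩ := hcard
        have haS0 : a ∈ S0 := by
          have : a ∈ S0 \ S := by rw [ha]; simp
          exact (Finset.mem_sdiff.mp this).1
        have haS : a ∉ S := by
          have : a ∈ S0 \ S := by rw [ha]; simp
          exact (Finset.mem_sdiff.mp this).2
        have hbS : b ∈ S := by
          have : b ∈ S \ S0 := by rw [hb]; simp
          exact (Finset.mem_sdiff.mp this).1
        have hbS0 : b ∉ S0 := by
          have : b ∈ S \ S0 := by rw [hb]; simp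
          exact (Finset.mem_sdiff.mp this).2
        have hSeq : S = insert b (S0.erase a) := by
          ext x
          constructor
          · intro hx
            by_cases hx0 : x ∈ S0
            · exact Finset.mem_insert_of_mem (Finset.mem_erase.mpr ⟨fun h => haS (h ▸ hx), hx0⟩)
            · have : x ∈ S \ S0 := Finset.mem_sdiff.mpr ⟨hx, hx0⟩
              rw [hb, Finset.mem_singleton] at this
              rw [this]; exact Finset.mem_insert_self _ _
          · intro hx
            rw [Finset.mem_insert, Finset.mem_erase] at hx
            rcases hx with rfl | ⟨hxa, hx0⟩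
            · exact hbS
            · by_contra hxS
              have : x ∈ S0 \ S := Finset.mem_sdiff.mpr ⟨hx0, hxS⟩
              rw [ha, Finset.mem_singleton] at this
              exact hxa this
        have hsum : ∑ i ∈ S, l i = ∑ i ∈ S0, l i + l a + l b := by
          rw [hSeq, Finset.sum_insert (fun h => hbS0 (Finset.mem_of_mem_erase h))]
          have := Finset.add_sum_erase S0 l haS0
          rw [← this]
          have h3 := add_self' (l a)
          linear_combination (-1 : ZMod 2) * h3
        have hla : l a = lq + G (insert q (S0.erase a)) + G S0 := by simp [l, haS0]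
        have hlb : l b = G (insert b (S0.erase p)) + G S0 := by simp [l, hbS0]
        rw [hsum, hla, hlb]
        have hss := add_self' (∑ i ∈ S0, l i)
        have hgg := add_self' (G S0)
        by_cases hap : a = p
        · subst hap
          have h4 := add_self' (G (insert q (S0.erase a)))
          rw [hSeq]
          simp only [lq]
          linear_combination (-1 : ZMod 2) * hss - hgg - hgg - h4
        · by_cases hbq : b = q
          · subst hbq
            have h4 := add_self' (G (insert b (S0.erase p)))
            rw [hSeq]
            simp only [lq]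
            linear_combination (-1 : ZMod 2) * hss - hgg - hgg - h4
          · have hpS : p ∈ S := by
              rw [hSeq]; exact Finset.mem_insert_of_mem (Finset.mem_erase.mpr ⟨fun h => hap h.symm, hp⟩)
            have hqS : q ∉ S := by
              rw [hSeq, Finset.mem_insert, Finset.mem_erase]
              rintro (h | ⟨_, h⟩)
              · exact hbq h.symm
              · exact hq h
            have hpb : p ≠ b := fun h => hbS0 (h ▸ hp)
            have haq : a ≠ q := fun h => hq (h ▸ haS0)
            have h5 := hG S p a b q hpS hbS haS hqS hpb haq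
            have e1 : insert a (S.erase p) = insert b (S0.erase p) := by
              ext x; rw [hSeq]; simp only [Finset.mem_insert, Finset.mem_erase]
              constructor
              · rintro (rfl | ⟨h1, h2 | ⟨h3, h4⟩⟩)
                · exact Or.inr ⟨hap, haS0⟩
                · exact Or.inl h2
                · exact Or.inr ⟨h1, h4⟩
              · rintro (rfl | ⟨h1, h2⟩)
                · exact Or.inr ⟨hpb.symm, Or.inl rfl⟩
                · by_cases hxa : x = a
                  · exact Or.inl hxa
                  · exact Or.inr ⟨h1, Or.inr ⟨hxa, h2⟩⟩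
            have e2 : insert q (S.erase b) = insert q (S0.erase a) := by
              ext x; rw [hSeq]; simp only [Finset.mem_insert, Finset.mem_erase]
              constructor
              · rintro (rfl | ⟨h1, h2 | ⟨h3, h4⟩⟩)
                · exact Or.inl rfl
                · exact absurd h2 h1
                · exact Or.inr ⟨h3, h4⟩
              · rintro (rfl | ⟨h1, h2⟩)
                · exact Or.inl rfl
                · exact Or.inr ⟨fun h => hbS0 (h ▸ h2), Or.inr ⟨h1, h2⟩⟩
            have e3 : insert a (insert q ((S.erase p).erase b)) = insert q (S0.erase p) := by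
              ext x; rw [hSeq]; simp only [Finset.mem_insert, Finset.mem_erase]
              constructor
              · rintro (rfl | rfl | ⟨h1, h2, h3 | ⟨h4, h5⟩⟩)
                · exact Or.inr ⟨hap, haS0⟩
                · exact Or.inl rfl
                · exact absurd h3 h1
                · exact Or.inr ⟨h2, h5⟩
              · rintro (rfl | ⟨h1, h2⟩)
                · exact Or.inr (Or.inl rfl)
                · by_cases hxa : x = a
                  · exact Or.inl hxa
                  · exact Or.inr (Or.inr ⟨fun h => hbS0 (h ▸ h2), h1, Or.inr ⟨hxa, h2⟩⟩)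
            rw [e1, e2, e3] at h5
            simp only [lq]
            have h6 := add_self' (G (insert b (S0.erase p)))
            have h7 := add_self' (G (insert q (S0.erase a)))
            have h8 := add_self' (G (insert q (S0.erase p)))
            linear_combination (-1 : ZMod 2) * hss - hgg - hgg + h5 - h6 - h7 - h8
      · -- r ≥ 2
        obtain ⟨a, ha, c, hc, hac⟩ := Finset.one_lt_card.mp (by rw [hr]; omega : 1 < (S0 \ S).card)
        obtain ⟨b, hb, d, hd, hbd⟩ := Finset.one_lt_card.mp (by rw [hcard]; omega : 1 < (S \ S0).card)
        rw [Finset.mem_sdiff] at ha hc hb hd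
        have h5 := hG S b a d c hb.1 hd.1 ha.2 hc.2 hbd hac
        have cA : ∀ (T : Finset ι) (x y : ι), x ∈ T → x ∉ S0 → y ∉ T → y ∈ S0 →
            (insert y (T.erase x)).card = T.card ∧
            (S0 \ (insert y (T.erase x))).card + 1 = (S0 \ T).card ∧
            ∑ i ∈ insert y (T.erase x), l i = ∑ i ∈ T, l i + l x + l y := by
          intro T x y hxT hx0 hyT hy0
          refine ⟨?_, ?_, ?_⟩
          · rw [Finset.card_insert_of_notMem (fun h => hyT (Finset.mem_of_mem_erase h)),
              Finset.card_erase_of_mem hxT]
            have := Finset.card_pos.mpr ⟨x, hxT⟩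
            omega
          · have : S0 \ (insert y (T.erase x)) = (S0 \ T).erase y := by
              ext z; simp only [Finset.mem_sdiff, Finset.mem_insert, Finset.mem_erase, not_or,
                not_and]
              constructor
              · rintro ⟨h1, h2, h3⟩
                exact ⟨h2, h1, fun hz => h3 (fun h => hx0 (h ▸ h1)) hz⟩
              · rintro ⟨h1, h2, h3⟩
                exact ⟨h2, h1, fun _ hz => h3 hz⟩
            rw [this, Finset.card_erase_of_mem (Finset.mem_sdiff.mpr ⟨hy0, hyT⟩)]
            have := Finset.card_pos.mpr ⟨y, Finset.mem_sdiff.mpr ⟨hy0, hyT⟩⟩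
            omega
          · rw [Finset.sum_insert (fun h => hyT (Finset.mem_of_mem_erase h))]
            have := Finset.add_sum_erase T l hxT
            rw [← this]
            have h3 := add_self' (l x)
            linear_combination (-1 : ZMod 2) * h3
        obtain ⟨a1, a2, a3⟩ := cA S b a hb.1 hb.2 ha.2 ha.1
        obtain ⟨b1, b2, b3⟩ := cA S d c hd.1 hd.2 hc.2 hc.1
        have hcT : c ∉ insert a (S.erase b) := by
          rw [Finset.mem_insert, Finset.mem_erase]
          rintro (h | ⟨_, h⟩)
          · exact hac h.symm
          · exact hc.2 h
        have hdT : d ∈ insert a (S.erase b) :=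
          Finset.mem_insert_of_mem (Finset.mem_erase.mpr ⟨hbd.symm, hd.1⟩)
        obtain ⟨c1, c2, c3⟩ := cA (insert a (S.erase b)) d c hdT hd.2 hcT hc.1
        have e4 : insert c ((insert a (S.erase b)).erase d) =
            insert a (insert c ((S.erase b).erase d)) := by
          rw [Finset.erase_insert_of_ne (fun (h : a = d) => hd.2 (h ▸ ha.1)), Finset.insert_comm]
        rw [e4] at c1 c2 c3
        have i1 := ih _ (by omega : r - 1 < r) (insert a (S.erase b)) (by rw [a1, hS]) (by omega)
        have i2 := ih _ (by omega : r - 1 < r) (insert c (S.erase d)) (by rw [b1, hS]) (by omega)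
        have i3 := ih _ (by omega : r - 2 < r) (insert a (insert c ((S.erase b).erase d)))
          (by rw [c1, a1, hS]) (by omega)
        rw [i1, i2, i3, c3, a3, b3] at h5
        have t1 := add_self' (l a)
        have t2 := add_self' (l b)
        have t3 := add_self' (l c)
        have t4 := add_self' (l d)
        have t5 := add_self' (G S0 + ∑ i ∈ S0, l i + ∑ i ∈ S, l i)
        linear_combination h5 - t1 - t2 - t3 - t4 - t5 - t5
  intro S hS
  rw [main _ S hS rfl]

end Pool.Agent.Q280.KB
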