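import Mathlib
import Pool.Agent.Q280.KB.Layer

namespace Pool.Agent.Q280.KB

open Finset

set_option linter.unusedSectionVars false

section quad

variable {n : ℕ}

/-- `∑_{i<j} x_i x_j` -/
def Q (x : Fin n → ZMod 2) : ZMod 2 :=
  ∑ i, ∑ j, if i < j then x i * x j else 0

/-- `∑ x_i` -/
def L {ι : Type*} [Fintype ι] (x : ι → ZMod 2) : ZMod 2 := ∑ i, x i

def wt {ι : Type*} [Fintype ι] (x : ι → ZMod 2) : ℕ := ∑ i, (x i).val

lemma L_add {ι : Type*} [Fintype ι] (x y : ι → ZMod 2) : L (x + y) = L x + L y := by
  simp [L, Finset.sum_add_distrib]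

lemma L_eq_wt {ι : Type*} [Fintype ι] (x : ι → ZMod 2) : L x = (wt x : ZMod 2) := by
  simp [L, wt]

lemma Q_polar (x y : Fin n → ZMod 2) :
    Q (x + y) = Q x + Q y + L x * L y + ∑ i, x i * y i := by
  have h1 : Q (x + y) = Q x + Q y + ((∑ i, ∑ j, if i < j then x i * y j else 0) +
      ∑ i, ∑ j, if i < j then y i * x j else 0) := by
    simp only [Q, ← Finset.sum_add_distrib]
    apply Finset.sum_congr rfl; intro i _
    apply Finset.sum_congr rfl; intro j _
    split_ifs
    · simp only [Pi.add_apply]; ring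
    · ring
  have h2 : L x * L y = (∑ i, ∑ j, if i < j then x i * y j else 0) +
      (∑ i, ∑ j, if i < j then y i * x j else 0) + ∑ i, x i * y i := by
    have h3 : (∑ i, ∑ j, if i < j then y i * x j else 0) =
        ∑ i, ∑ j, if j < i then x i * y j else 0 := by
      rw [Finset.sum_comm]
      apply Finset.sum_congr rfl; intro i _
      apply Finset.sum_congr rfl; intro j _
      split_ifs
      · ring
      · rfl
    have h4 : ∑ i, x i * y i = ∑ i, ∑ j, if i = j then x i * y j else 0 := by
      apply Finset.sum_congr rfl; intro i _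
      simp
    rw [h3, h4, L, L, Finset.sum_mul_sum]
    simp only [← Finset.sum_add_distrib]
    apply Finset.sum_congr rfl; intro i _
    apply Finset.sum_congr rfl; intro j _
    rcases lt_trichotomy i j with h | h | h
    · simp [h, h.ne, h.not_gt]
    · subst h; simp
    · simp [h, h.ne', h.not_gt]
  rw [h1, h2]
  have h5 := add_self' (∑ i, x i * y i)
  linear_combination (-1 : ZMod 2) * h5

lemma Q_eq_choose (x : Fin n → ZMod 2) : Q x = ((wt x).choose 2 : ℕ) := by
  have key : wt x * wt x = wt x + 2 * ∑ i, ∑ j, if i < j then (x i).val * (x j).val else 0 := by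
    have h2 : (∑ i, (x i).val) * (∑ j, (x j).val) =
        (∑ i, ∑ j, if i < j then (x i).val * (x j).val else 0) +
        (∑ i, ∑ j, if i < j then (x i).val * (x j).val else 0) + ∑ i, (x i).val := by
      have h3 : (∑ i, ∑ j, if i < j then (x i).val * (x j).val else 0) =
          ∑ i, ∑ j, if j < i then (x i).val * (x j).val else 0 := by
        rw [Finset.sum_comm]
        apply Finset.sum_congr rfl; intro i _
        apply Finset.sum_congr rfl; intro j _
        split_ifs
        · ring
        · rfl
      have h4 : ∑ i, (x i).val = ∑ i, ∑ j, if i = j then (x i).val * (x j).val else 0 := by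
        apply Finset.sum_congr rfl; intro i _
        simp only [Finset.sum_ite_eq, Finset.mem_univ, if_true]
        rcases zmod2_cases (x i) with h | h <;> rw [h] <;> rfl
      nth_rewrite 2 [h3]
      rw [Finset.sum_mul_sum, h4]
      simp only [← Finset.sum_add_distrib]
      apply Finset.sum_congr rfl; intro i _
      apply Finset.sum_congr rfl; intro j _
      rcases lt_trichotomy i j with h | h | h
      · simp [h, h.ne, h.not_gt]
      · subst h; simp
      · simp [h, h.ne', h.not_gt]
    unfold wt
    rw [h2]; ring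
  have h1 : (wt x).choose 2 = ∑ i, ∑ j, if i < j then (x i).val * (x j).val else 0 := by
    rw [Nat.choose_two_right]
    rcases Nat.eq_zero_or_pos (wt x) with h0 | h0
    · rw [h0] at key ⊢
      simp only [Nat.zero_mul, Nat.zero_div]
      omega
    · have : wt x * (wt x - 1) = 2 * ∑ i, ∑ j, if i < j then (x i).val * (x j).val else 0 := by
        rw [Nat.mul_sub, Nat.mul_one, key]; omega
      rw [this]; simp
  rw [h1]
  push_cast
  unfold Q
  apply Finset.sum_congr rfl; intro i _
  apply Finset.sum_congr rfl; intro j _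
  split_ifs
  · simp
  · rfl

lemma wt_perm {ι : Type*} [Fintype ι] (x : ι → ZMod 2) (π : Equiv.Perm ι) :
    wt (fun i => x (π i)) = wt x := by
  unfold wt
  exact Equiv.sum_comp π (fun i => (x i).val)

lemma L_perm {ι : Type*} [Fintype ι] (x : ι → ZMod 2) (π : Equiv.Perm ι) :
    L (fun i => x (π i)) = L x := by
  unfold L
  exact Equiv.sum_comp π x

lemma Q_perm (x : Fin n → ZMod 2) (π : Equiv.Perm (Fin n)) :
    Q (fun i => x (π i)) = Q x := by
  rw [Q_eq_choose, Q_eq_choose, wt_perm]

lemma wt_single {ι : Type*} [Fintype ι] [DecidableEq ι] (a : ι) :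
    wt (Pi.single a (1 : ZMod 2)) = 1 := by
  unfold wt
  rw [Finset.sum_eq_single a]
  · simp; rfl
  · intro b _ hb; simp [Pi.single_apply, hb]
  · intro h; exact absurd (Finset.mem_univ a) h

lemma Q_single (a : Fin n) : Q (Pi.single a (1 : ZMod 2)) = 0 := by
  rw [Q_eq_choose, wt_single]; rfl

lemma choose_two_mul (t : ℕ) : (((2 * t).choose 2 : ℕ) : ZMod 2) = (t : ZMod 2) := by
  have : (2 * t).choose 2 = t * (2 * t - 1) := by
    rw [Nat.choose_two_right, mul_assoc, Nat.mul_div_cancel_left _ (by norm_num)]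
  rw [this]
  rcases t with _ | t
  · simp
  · have : 2 * (t + 1) - 1 = 2 * t + 1 := by omega
    rw [this]
    push_cast
    have h2 : (2 : ZMod 2) = 0 := by decide
    rw [h2]; ring

lemma wt_dv {m : ℕ} {ι : Type*} [Fintype ι] [DecidableEq ι] (e : Fin m ⊕ Fin m ≃ ι)
    (τ : Fin m → ZMod 2) : wt (dv e τ) = 2 * wt τ := by
  unfold wt
  rw [sum_pair e]
  simp only [dv_inl, dv_inr]
  rw [Finset.mul_sum]
  exact Finset.sum_congr rfl (fun i _ => by ring)

lemma L_dv {m : ℕ} {ι : Type*} [Fintype ι] [DecidableEq ι] (e : Fin m ⊕ Fin m ≃ ι)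
    (τ : Fin m → ZMod 2) : L (dv e τ) = 0 := by
  rw [L_eq_wt, wt_dv]
  push_cast
  have h2 : (2 : ZMod 2) = 0 := by decide
  rw [h2]; ring

lemma Q_dv {m : ℕ} (e : Fin m ⊕ Fin m ≃ Fin n) (τ : Fin m → ZMod 2) :
    Q (dv e τ) = ∑ i, τ i := by
  rw [Q_eq_choose, wt_dv, choose_two_mul, ← L_eq_wt]; rfl

lemma wt_le {ι : Type*} [Fintype ι] (x : ι → ZMod 2) : wt x ≤ Fintype.card ι := by
  unfold wt
  calc ∑ i, (x i).val ≤ ∑ _i : ι, 1 := Finset.sum_le_sum (fun i _ => by
        rcases zmod2_cases (x i) with h | h <;> rw [h] <;> decide)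
    _ = Fintype.card ι := by simp

lemma wt_eq_card {ι : Type*} [Fintype ι] [DecidableEq ι] (x : ι → ZMod 2) :
    wt x = Fintype.card {i // x i = 1} := by
  rw [Fintype.card_subtype, Finset.card_filter]
  unfold wt
  apply Finset.sum_congr rfl
  intro i _
  rcases zmod2_cases (x i) with h | h <;> rw [h] <;> decide

lemma exists_equiv_of_wt {α β : Type*} [Fintype α] [Fintype β] [DecidableEq α] [DecidableEq β]
    (hc : Fintype.card α = Fintype.card β) (x : α → ZMod 2) (y : β → ZMod 2)
    (h : wt x = wt y) : ∃ e : α ≃ β, ∀ s, y (e s) = x s := by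
  have hE : ∀ t : ZMod 2, Nonempty ({a // x a = t} ≃ {b // y b = t}) := by
    intro t
    have hcard : Fintype.card {a // x a = t} = Fintype.card {b // y b = t} := by
      rcases zmod2_cases t with ht | ht
      · subst ht
        have e1 : Fintype.card {a // x a = 0} = Fintype.card α - wt x := by
          rw [wt_eq_card, ← Fintype.card_subtype_compl]
          apply Fintype.card_congr
          apply Equiv.subtypeEquivRight
          intro a; rcases zmod2_cases (x a) with h | h <;> rw [h] <;> decide
        have e2 : Fintype.card {b // y b = 0} = Fintype.card β - wt y := by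
          rw [wt_eq_card, ← Fintype.card_subtype_compl]
          apply Fintype.card_congr
          apply Equiv.subtypeEquivRight
          intro a; rcases zmod2_cases (y a) with h | h <;> rw [h] <;> decide
        rw [e1, e2, hc, h]
      · subst ht
        rw [← wt_eq_card, ← wt_eq_card, h]
    exact ⟨Fintype.equivOfCardEq hcard⟩
  let E := fun t => Classical.choice (hE t)
  refine ⟨(Equiv.sigmaFiberEquiv x).symm.trans ((Equiv.sigmaCongrRight E).trans
    (Equiv.sigmaFiberEquiv y)), ?_⟩
  intro s
  exact (E (x s) ⟨s, rfl⟩).2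

/-- every even vector is constant on the pairs of a suitable pairing -/
lemma exists_pairing {m : ℕ} (hn : n = 2 * m) (x : Fin n → ZMod 2) (hx : L x = 0) :
    ∃ (e : Fin m ⊕ Fin m ≃ Fin n) (τ : Fin m → ZMod 2), x = dv e τ := by
  subst hn
  have hev : Even (wt x) := by
    rw [L_eq_wt] at hx
    exact (ZMod.natCast_eq_zero_iff_even).mp hx
  obtain ⟨t, ht⟩ := hev
  have hle := wt_le x
  rw [Fintype.card_fin] at hle
  let τ : Fin m → ZMod 2 := fun i => if (i : ℕ) < t then 1 else 0
  have hwτ : wt τ = t := by
    rw [wt_eq_card, Fintype.card_subtype]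
    have : (univ.filter (fun i : Fin m => τ i = 1)) = univ.filter (fun i : Fin m => (i : ℕ) < t) := by
      apply Finset.filter_congr
      intro i _
      simp only [τ]
      split_ifs with h <;> simp [h]
    rw [this]
    have h2 := Fin.card_filter_val_lt (n := m) (m := t)
    omega
  have h0 : wt (Sum.elim τ τ : Fin m ⊕ Fin m → ZMod 2) = wt x := by
    unfold wt
    rw [Fintype.sum_sum_type]
    simp only [Sum.elim_inl, Sum.elim_inr]
    have : ∑ i, (τ i).val = t := hwτ
    rw [this]; unfold wt at ht; omega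
  obtain ⟨e, he⟩ := exists_equiv_of_wt (by simp; omega) (Sum.elim τ τ) x h0
  refine ⟨e, τ, ?_⟩
  apply ext_pair e
  · intro i; rw [he]; simp
  · intro i; rw [he]; simp

end quad

end Pool.Agent.Q280.KB
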