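import Mathlib
import Pool.Agent.Q280.KB.Quad

namespace Pool.Agent.Q280.KB

open Finset

set_option linter.unusedSectionVars false

section core

variable {m : ℕ}

/-- the vector that is `s i` on the first member of the `i`-th pair and `0` on the second -/
def vv {ι : Type*} (e : Fin m ⊕ Fin m ≃ ι) (s : Fin m → ZMod 2) : ι → ZMod 2 :=
  fun j => Sum.elim s (fun _ => 0) (e.symm j)

@[simp] lemma vv_inl {ι : Type*} (e : Fin m ⊕ Fin m ≃ ι) (s : Fin m → ZMod 2) (i : Fin m) :
    vv e s (e (Sum.inl i)) = s i := by simp [vv]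

@[simp] lemma vv_inr {ι : Type*} (e : Fin m ⊕ Fin m ≃ ι) (s : Fin m → ZMod 2) (i : Fin m) :
    vv e s (e (Sum.inr i)) = 0 := by simp [vv]

lemma inner_vv_dv {ι : Type*} [Fintype ι] [DecidableEq ι] (e : Fin m ⊕ Fin m ≃ ι)
    (s τ : Fin m → ZMod 2) : ∑ j, vv e s j * dv e τ j = ∑ i, s i * τ i := by
  rw [sum_pair e]
  simp

lemma wt_vv_add_dv {ι : Type*} [Fintype ι] [DecidableEq ι] (e : Fin m ⊕ Fin m ≃ ι)
    (s τ : Fin m → ZMod 2) : wt (vv e s + dv e τ) = ∑ i, ((s i + τ i).val + (τ i).val) := by
  unfold wt
  rw [sum_pair e]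
  simp

lemma wt_all (e : Fin m ⊕ Fin m ≃ Fin (2 * m)) (τ : Fin m → ZMod 2) :
    wt (vv e (fun _ => 1) + dv e τ) = m := by
  rw [wt_vv_add_dv]
  have : ∀ i, ((1 + τ i).val + (τ i).val) = 1 := by
    intro i
    rcases zmod2_cases (τ i) with h | h <;> rw [h] <;> decide
  rw [Finset.sum_congr rfl (fun i _ => this i)]
  simp

lemma wt_last (e : Fin m ⊕ Fin m ≃ Fin (2 * m)) (last : Fin m) (τ : Fin m → ZMod 2) :
    wt (vv e (fun i => if i = last then 0 else 1) + dv e τ) + 1 = m + 2 * (τ last).val := by
  rw [wt_vv_add_dv]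
  have : ∀ i, (((if i = last then 0 else 1) + τ i).val + (τ i).val) +
      (if i = last then 1 else 0) = 1 + (if i = last then 2 * (τ last).val else 0) := by
    intro i
    by_cases hi : i = last
    · subst hi
      simp only [if_true]
      rcases zmod2_cases (τ i) with h | h <;> rw [h] <;> decide
    · simp only [if_neg hi]
      rcases zmod2_cases (τ i) with h | h <;> rw [h] <;> decide
  have h2 := Finset.sum_congr rfl (fun i (_ : i ∈ (univ : Finset (Fin m))) => this i)
  simp only [Finset.sum_add_distrib, Finset.sum_ite_eq', Finset.mem_univ, if_true,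
    Finset.sum_const, Finset.card_univ, Fintype.card_fin, smul_eq_mul, mul_one] at h2 ⊢
  exact h2

/-- the all-one vector -/
def one (n : ℕ) : Fin n → ZMod 2 := fun _ => 1

lemma wt_one (n : ℕ) : wt (one n) = n := by
  unfold wt one
  have : ((1 : ZMod 2)).val = 1 := by decide
  simp [this]

lemma L_one : L (one (2 * m)) = 0 := by
  rw [L_eq_wt, wt_one]
  push_cast
  have h2 : (2 : ZMod 2) = 0 := by decide
  rw [h2]; ring

lemma Q_one : Q (one (2 * m)) = (m : ZMod 2) := by
  rw [Q_eq_choose, wt_one, choose_two_mul]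

lemma wt_add_one (y : Fin (2 * m) → ZMod 2) : wt (y + one (2 * m)) + wt y = 2 * m := by
  have : ∀ i, ((y + one (2 * m)) i).val + (y i).val = 1 := by
    intro i
    simp only [Pi.add_apply, one]
    rcases zmod2_cases (y i) with h | h <;> rw [h] <;> decide
  unfold wt
  rw [← Finset.sum_add_distrib, Finset.sum_congr rfl (fun i _ => this i)]
  simp

lemma even_part (f g : (Fin (2 * m) → ZMod 2) → ZMod 2)
    (hfg : ∀ y, W f y = 2 ^ m * sgn (g y)) (h0 : ∀ y, wt y = m → g y = 0)
    (x : Fin (2 * m) → ZMod 2) (hx : L x = 0) : f x = Q x := by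
  obtain ⟨e, τ, rfl⟩ := exists_pairing rfl x hx
  have := pairing e f g hfg (vv e (fun _ => 1)) 0 0 (by
    intro t
    rw [h0 _ (wt_all e t)]
    simp) τ
  rw [zero_add, zero_add, inner_vv_dv] at this
  rw [this, Q_dv]
  simp

lemma shift_rel (f g : (Fin (2 * m) → ZMod 2) → ZMod 2)
    (hfg : ∀ y, W f y = 2 ^ m * sgn (g y)) (h0 : ∀ y, wt y = m → g y = 0)
    (y : Fin (2 * m) → ZMod 2) (hy : L y = (m : ZMod 2) + 1) :
    g (y + one (2 * m)) = g y + 1 := by
  have hsum : W f y + W f (y + one (2 * m)) = 0 := by
    unfold W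
    rw [← Finset.sum_add_distrib]
    apply sum_neg_shift _ (one (2 * m))
    intro x
    have e1 : ∀ z : Fin (2 * m) → ZMod 2, ∑ i, z i * (y + one (2 * m)) i = ∑ i, z i * y i + L z := by
      intro z
      simp only [Pi.add_apply, one, mul_add, mul_one, Finset.sum_add_distrib, L]
    have e2 : ∑ i, (x + one (2 * m)) i * y i = ∑ i, x i * y i + L y := by
      simp only [Pi.add_apply, one, add_mul, one_mul, Finset.sum_add_distrib, L]
    rw [e1, e1, e2, L_add, L_one, add_zero]
    rcases zmod2_cases (L x) with hL | hL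
    · have hf1 : f x = Q x := even_part f g hfg h0 x hL
      have hf2 : f (x + one (2 * m)) = Q x + m := by
        rw [even_part f g hfg h0 _ (by rw [L_add, L_one, hL, add_zero]), Q_polar, Q_one, hL]
        have : ∑ i, x i * one (2 * m) i = L x := by simp [one, L]
        rw [this, hL]; ring
      rw [hf1, hf2, hL, hy, add_zero, add_zero]
      have h2 := add_self' (m : ZMod 2)
      have : Q x + (m : ZMod 2) + (∑ i, x i * y i + ((m : ZMod 2) + 1)) =
          (Q x + ∑ i, x i * y i) + 1 := by
        linear_combination h2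
      rw [this, sgn_add]
      simp only [sgn, one_ne_zero, if_false]
      ring
    · rw [hL]
      have s1 : ∀ a b : ZMod 2, sgn (a + b) + sgn (a + (b + 1)) = 0 := by
        intro a b; revert a b; decide
      rw [s1, s1]; rfl
  rw [hfg, hfg] at hsum
  have hpos : (2 : ℤ) ^ m ≠ 0 := by positivity
  have h3 : sgn (g (y + one (2 * m))) = - sgn (g y) := by
    have : (2 : ℤ) ^ m * (sgn (g y) + sgn (g (y + one (2 * m)))) = 0 := by linarith
    rcases mul_eq_zero.mp this with h | h
    · exact absurd h hpos
    · linarith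
  generalize g (y + one (2 * m)) = a at h3
  generalize g y = b at h3
  revert h3
  revert a b
  decide

lemma core (hm : 2 ≤ m) (f g : (Fin (2 * m) → ZMod 2) → ZMod 2)
    (hfg : ∀ y, W f y = 2 ^ m * sgn (g y)) (h0 : ∀ y, wt y = m → g y = 0)
    (ν : Fin (2 * m) → ZMod 2) (c : ZMod 2)
    (h1 : ∀ y, wt y + 1 = m → g y = c + ∑ i, ν i * y i) :
    L ν = 0 ∧ ∀ x, f x = Q x + L x * (∑ i, ν i * x i) + L x * (c + Q ν) := by
  have hup : ∀ y, wt y = m + 1 → g y = c + ∑ i, ν i * y i + L ν + 1 := by
    intro y hy
    have hw := wt_add_one y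
    have hw2 : wt (y + one (2 * m)) + 1 = m := by omega
    have hL : L (y + one (2 * m)) = (m : ZMod 2) + 1 := by
      rw [L_add, L_one, add_zero, L_eq_wt, hy]; push_cast; rfl
    have h3 := shift_rel f g hfg h0 _ hL
    have h4 : y + one (2 * m) + one (2 * m) = y := by
      rw [add_assoc, addself_fun, add_zero]
    rw [h4, h1 _ hw2] at h3
    rw [h3]
    have : ∑ i, ν i * (y + one (2 * m)) i = ∑ i, ν i * y i + L ν := by
      simp only [Pi.add_apply, one, mul_add, mul_one, Finset.sum_add_distrib, L]
    rw [this]; ring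
  have hL0 : L ν = 0 := by
    by_contra hne
    have hL1 : L ν = 1 := by
      rcases zmod2_cases (L ν) with h | h
      · exact absurd h hne
      · exact h
    obtain ⟨e, -, -⟩ := exists_pairing (m := m) rfl (0 : Fin (2 * m) → ZMod 2) (by simp [L])
    have hall : ∀ (last : Fin m) (t : Fin m → ZMod 2),
        f (ν + dv e t) = c + ∑ i, (if i = last then 0 else 1) * t i := by
      intro last t
      have := pairing e f g hfg (vv e (fun i => if i = last then 0 else 1)) ν c (by
        intro s
        have hw := wt_last e last s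
        rcases zmod2_cases (s last) with h | h
        · rw [h] at hw
          have hv : (0 : ZMod 2).val = 0 := by decide
          rw [hv] at hw
          exact h1 _ (by omega)
        · rw [h] at hw
          have hv : (1 : ZMod 2).val = 1 := by decide
          rw [hv] at hw
          rw [hup _ (by omega), hL1]
          have h2 := add_self' (1 : ZMod 2)
          linear_combination h2) t
      rw [this, inner_vv_dv]
    let i0 : Fin m := ⟨0, by omega⟩
    let i1 : Fin m := ⟨1, by omega⟩
    have hi : i0 ≠ i1 := by simp [i0, i1]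
    have a0 := hall i0 (Pi.single i0 1)
    have a1 := hall i1 (Pi.single i0 1)
    rw [a0] at a1
    have b0 : ∑ i, (if i = i0 then (0 : ZMod 2) else 1) * (Pi.single i0 (1 : ZMod 2) : Fin m → ZMod 2) i = 0 := by
      apply Finset.sum_eq_zero
      intro i _
      by_cases h : i = i0
      · simp [h]
      · simp [h]
    have b1 : ∑ i, (if i = i1 then (0 : ZMod 2) else 1) * (Pi.single i0 (1 : ZMod 2) : Fin m → ZMod 2) i = 1 := by
      rw [Finset.sum_eq_single i0]
      · simp [hi]
      · intro b _ hb; simp [hb]
      · intro h; exact absurd (Finset.mem_univ _) h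
    rw [b0, b1] at a1
    have := add_left_cancel a1
    exact absurd this (by decide)
  refine ⟨hL0, ?_⟩
  intro x
  rcases zmod2_cases (L x) with hx | hx
  · rw [even_part f g hfg h0 x hx, hx]; ring
  · -- odd case
    have hz : L (x + ν) = 1 := by rw [L_add, hx, hL0, add_zero]
    obtain ⟨a, ha⟩ : ∃ a, (x + ν) a = 1 := by
      by_contra hcon
      push Not at hcon
      have : L (x + ν) = 0 := by
        unfold L
        apply Finset.sum_eq_zero
        intro i _
        rcases zmod2_cases ((x + ν) i) with h | h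
        · exact h
        · exact absurd h (hcon i)
      rw [this] at hz
      exact absurd hz (by decide)
    have hLs : L (Pi.single a (1 : ZMod 2) : Fin (2 * m) → ZMod 2) = 1 := by
      rw [L_eq_wt, wt_single]; rfl
    obtain ⟨e, τ, hτ⟩ := exists_pairing (m := m) rfl (x + ν + Pi.single a (1 : ZMod 2)) (by
      rw [L_add, hz, hLs]; decide)
    obtain ⟨last, hlast1, hlast2⟩ : ∃ last : Fin m, (∀ t, dv e t a = t last) ∧
        (∀ s : Fin m → ZMod 2, s last = 0 → vv e s a = 0) := by
      obtain ⟨s, hs⟩ := e.surjective a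
      rcases s with i | i
      · exact ⟨i, fun t => by rw [← hs]; simp, fun s hs' => by rw [← hs]; simp [hs']⟩
      · exact ⟨i, fun t => by rw [← hs]; simp, fun s hs' => by rw [← hs]; simp⟩
    have hτlast : τ last = 0 := by
      rw [← hlast1 τ, ← hτ]
      simp only [Pi.add_apply, Pi.single_eq_same]
      simp only [Pi.add_apply] at ha
      rw [ha]; decide
    have hsa : ∀ z : Fin (2 * m) → ZMod 2, ∑ i, (ν + (Pi.single a (1 : ZMod 2) : Fin (2 * m) → ZMod 2)) i * z i =
        ∑ i, ν i * z i + z a := by
      intro z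
      simp only [Pi.add_apply, add_mul, Finset.sum_add_distrib]
      congr 1
      rw [Finset.sum_eq_single a]
      · simp
      · intro b _ hb; simp [hb]
      · intro h; exact absurd (Finset.mem_univ _) h
    have := pairing e f g hfg (vv e (fun i => if i = last then 0 else 1))
      (ν + Pi.single a (1 : ZMod 2)) c (by
        intro s
        have hw := wt_last e last s
        rw [hsa]
        have hya : (vv e (fun i => if i = last then 0 else 1) + dv e s) a = s last := by
          simp only [Pi.add_apply]
          rw [hlast1, hlast2 _ (by simp), zero_add]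
        rw [hya]
        rcases zmod2_cases (s last) with h | h
        · rw [h] at hw
          have hv : (0 : ZMod 2).val = 0 := by decide
          rw [hv] at hw
          rw [h1 _ (by omega), h, add_zero]
        · rw [h] at hw
          have hv : (1 : ZMod 2).val = 1 := by decide
          rw [hv] at hw
          rw [hup _ (by omega), hL0, h]
          ring) τ
    have hxe : ν + Pi.single a (1 : ZMod 2) + dv e τ = x := by
      rw [← hτ]
      have a1 := addself_fun ν
      have a2 := addself_fun (Pi.single a (1 : ZMod 2) : Fin (2 * m) → ZMod 2)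
      have : ν + Pi.single a (1 : ZMod 2) + (x + ν + Pi.single a (1 : ZMod 2)) =
        x + (ν + ν) + ((Pi.single a (1 : ZMod 2) : Fin (2 * m) → ZMod 2) + Pi.single a (1 : ZMod 2)) := by
        abel
      rw [this, a1, a2, add_zero, add_zero]
    rw [hxe, inner_vv_dv] at this
    have hs : ∑ i, (if i = last then (0 : ZMod 2) else 1) * τ i = ∑ i, τ i := by
      apply Finset.sum_congr rfl
      intro i _
      by_cases h : i = last
      · rw [if_pos h, h, hτlast]; ring
      · rw [if_neg h]; ring
    rw [hs] at this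
    have hQ : Q (x + ν) = ∑ i, τ i := by
      have hxz : x + ν = Pi.single a (1 : ZMod 2) + dv e τ := by
        rw [← hτ]
        have a2 := addself_fun (Pi.single a (1 : ZMod 2) : Fin (2 * m) → ZMod 2)
        have : (Pi.single a (1 : ZMod 2) : Fin (2 * m) → ZMod 2) + (x + ν + Pi.single a (1 : ZMod 2)) =
          (x + ν) + ((Pi.single a (1 : ZMod 2) : Fin (2 * m) → ZMod 2) + Pi.single a (1 : ZMod 2)) := by
          abel
        rw [this, a2, add_zero]
      rw [hxz, Q_polar, Q_single, Q_dv, L_dv]
      have : ∑ i, (Pi.single a (1 : ZMod 2) : Fin (2 * m) → ZMod 2) i * dv e τ i = 0 := by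
        rw [Finset.sum_eq_single a]
        · simp [hlast1, hτlast]
        · intro b _ hb; simp [hb]
        · intro h; exact absurd (Finset.mem_univ _) h
      rw [this]; ring
    rw [this, ← hQ, Q_polar, hx, hL0]
    have : ∑ i, x i * ν i = ∑ i, ν i * x i := Finset.sum_congr rfl (fun i _ => mul_comm _ _)
    rw [this]; ring

end core

end Pool.Agent.Q280.KB
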