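import Mathlib
import Pool.Agent.Q280.KB.Core

namespace Pool.Agent.Q280.KB

open Finset

set_option linter.unusedSectionVars false

section conv

variable {m : ℕ}

/-- a function with a nondegenerate additive polar form has a flat sign sum -/
lemma flat_of_nondeg {ι : Type*} [Fintype ι] [DecidableEq ι] (F : (ι → ZMod 2) → ZMod 2)
    (B : (ι → ZMod 2) → (ι → ZMod 2) → ZMod 2)
    (hB : ∀ x h, F (x + h) = F x + F h + F 0 + B x h)
    (hadd : ∀ x x' h, B (x + x') h = B x h + B x' h)
    (hnd : ∀ h, h ≠ 0 → ∃ x, B x h = 1) :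
    (∑ x, sgn (F x)) * (∑ x, sgn (F x)) = 2 ^ (Fintype.card ι) := by
  rw [Finset.sum_mul_sum]
  have h1 : ∑ x, ∑ x', sgn (F x) * sgn (F x') =
      ∑ h, ∑ x, sgn (F h + F 0) * sgn (B x h) := by
    rw [Finset.sum_comm (s := (univ : Finset (ι → ZMod 2))) (t := univ)
      (f := fun h x => sgn (F h + F 0) * sgn (B x h))]
    apply Finset.sum_congr rfl
    intro x _
    rw [← Equiv.sum_comp (Equiv.addLeft x) (fun x' => sgn (F x) * sgn (F x'))]
    apply Finset.sum_congr rfl
    intro h _
    simp only [Equiv.coe_addLeft]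
    rw [hB x h, ← sgn_add, ← sgn_add]
    congr 1
    have := add_self' (F x)
    linear_combination this
  rw [h1, Finset.sum_eq_single 0]
  · have hB0 : ∀ x, B x 0 = 0 := by
      intro x
      have := hB x 0
      rw [add_zero] at this
      have h2 := add_self' (F 0)
      have h3 := add_self' (F x)
      have h4 : F x + F x = F x + (F x + F 0 + F 0 + B x 0) := by rw [← this]
      have h5 : B x 0 = (F x + F x) - (F x + F x) - (F 0 + F 0) := by
        linear_combination (-1 : ZMod 2) * h4
      rw [h5, h2, h3]; ring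
    have h2 := add_self' (F 0)
    simp only [hB0, h2]
    simp [sgn]
  · intro h _ hh
    rw [← Finset.mul_sum]
    obtain ⟨x0, hx0⟩ := hnd h hh
    have : ∑ x, sgn (B x h) = 0 := by
      apply sum_neg_shift _ x0
      intro x
      rw [hadd, hx0, sgn_add]
      simp [sgn]
    rw [this, mul_zero]
  · intro h; exact absurd (Finset.mem_univ _) h

/-- `x_{2i+1} + x_{2i+2}` (1-based) -/
def ps (x : Fin (2 * m) → ZMod 2) (i : Fin m) : ZMod 2 :=
  x ⟨2 * i, by omega⟩ + x ⟨2 * i + 1, by omega⟩

lemma ps_add (x y : Fin (2 * m) → ZMod 2) (i : Fin m) : ps (x + y) i = ps x i + ps y i := by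
  simp only [ps, Pi.add_apply]; ring

/-- the bilinear-type form of the `k`-transform -/
def fk (k : ℕ) (x y : Fin (2 * m) → ZMod 2) : ZMod 2 :=
  (∑ i, x i * y i) +
    ∑ i : Fin m, ∑ j : Fin m,
      if i ≤ j ∧ (j : ℕ) < k then ps x i * ps x j * (ps y i * ps y j) else 0

lemma tri_sum {κ : Type*} [Fintype κ] [LinearOrder κ] (a b : κ → ZMod 2) :
    (∑ i, ∑ j, if i ≤ j then a i * b j + b i * a j else 0) =
      (∑ i, a i) * (∑ i, b i) + ∑ i, a i * b i := by
  have h3 : (∑ i, ∑ j, if i ≤ j then b i * a j else 0) =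
      ∑ i, ∑ j, if j ≤ i then a i * b j else 0 := by
    rw [Finset.sum_comm]
    apply Finset.sum_congr rfl; intro i _
    apply Finset.sum_congr rfl; intro j _
    split_ifs
    · ring
    · rfl
  have h4 : ∑ i, a i * b i = ∑ i, ∑ j, if i = j then a i * b j else 0 := by
    apply Finset.sum_congr rfl; intro i _
    simp
  have h1 : (∑ i, ∑ j, if i ≤ j then a i * b j + b i * a j else 0) =
      (∑ i, ∑ j, if i ≤ j then a i * b j else 0) + ∑ i, ∑ j, if i ≤ j then b i * a j else 0 := by
    simp only [← Finset.sum_add_distrib]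
    apply Finset.sum_congr rfl; intro i _
    apply Finset.sum_congr rfl; intro j _
    split_ifs
    · rfl
    · ring
  rw [h1, h3, h4, Finset.sum_mul_sum]
  simp only [← Finset.sum_add_distrib]
  apply Finset.sum_congr rfl; intro i _
  apply Finset.sum_congr rfl; intro j _
  rcases lt_trichotomy i j with h | h | h
  · simp [h, h.ne, h.le, h.not_ge]
  · subst h; simp
  · simp [h, h.ne', h.le, h.not_ge]

/-- the truncated coefficients -/
def cf (k : ℕ) (y : Fin (2 * m) → ZMod 2) (i : Fin m) : ZMod 2 :=
  if (i : ℕ) < k then ps y i else 0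

lemma fk_polar (k : ℕ) (x h y : Fin (2 * m) → ZMod 2) :
    fk k (x + h) y = fk k x y + fk k h y +
      ((∑ i, cf k y i * ps x i) * (∑ i, cf k y i * ps h i) +
        ∑ i, (cf k y i * ps x i) * (cf k y i * ps h i)) := by
  rw [← tri_sum]
  unfold fk
  have e1 : ∑ i, (x + h) i * y i = ∑ i, x i * y i + ∑ i, h i * y i := by
    simp only [Pi.add_apply, add_mul, Finset.sum_add_distrib]
  rw [e1]
  have e2 : (∑ i : Fin m, ∑ j : Fin m,
      if i ≤ j ∧ (j : ℕ) < k then ps (x + h) i * ps (x + h) j * (ps y i * ps y j) else 0) =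
      (∑ i : Fin m, ∑ j : Fin m,
        if i ≤ j ∧ (j : ℕ) < k then ps x i * ps x j * (ps y i * ps y j) else 0) +
      (∑ i : Fin m, ∑ j : Fin m,
        if i ≤ j ∧ (j : ℕ) < k then ps h i * ps h j * (ps y i * ps y j) else 0) +
      ∑ i : Fin m, ∑ j : Fin m, if i ≤ j then
        cf k y i * ps x i * (cf k y j * ps h j) + cf k y i * ps h i * (cf k y j * ps x j) else 0 := by
    simp only [← Finset.sum_add_distrib]
    apply Finset.sum_congr rfl; intro i _
    apply Finset.sum_congr rfl; intro j _
    by_cases hij : i ≤ j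
    · by_cases hj : (j : ℕ) < k
      · have hi : (i : ℕ) < k := lt_of_le_of_lt hij hj
        simp only [hij, hj, and_self, if_true, cf, hi, ps_add]
        ring
      · simp only [hij, hj, and_false, if_true, if_false, cf]
        ring
    · simp [hij]
  rw [e2]
  ring

lemma ps_zero (i : Fin m) : ps (0 : Fin (2 * m) → ZMod 2) i = 0 := by
  simp [ps]

lemma fk_zero (k : ℕ) (y : Fin (2 * m) → ZMod 2) : fk k 0 y = 0 := by
  simp [fk, ps_zero]

lemma ps_one (i : Fin m) : ps (one (2 * m)) i = 0 := by
  simp only [ps, one]; decide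

lemma ps_single_even (i j : Fin m) :
    ps (Pi.single (⟨2 * i, by omega⟩ : Fin (2 * m)) (1 : ZMod 2)) j = if j = i then 1 else 0 := by
  unfold ps
  by_cases h : j = i
  · subst h
    simp [Pi.single_apply]
  · have h1 : (j : ℕ) ≠ i := fun hh => h (Fin.ext hh)
    have h2 : ¬ (2 * (j : ℕ) = 2 * i) := by omega
    have h3 : ¬ (2 * (j : ℕ) + 1 = 2 * i) := by omega
    simp only [Pi.single_apply, Fin.mk.injEq, h2, h3, h, if_false]
    decide

lemma ps_single_odd (i j : Fin m) :
    ps (Pi.single (⟨2 * i + 1, by omega⟩ : Fin (2 * m)) (1 : ZMod 2)) j =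
      if j = i then 1 else 0 := by
  unfold ps
  by_cases h : j = i
  · subst h
    simp [Pi.single_apply]
  · have h1 : (j : ℕ) ≠ i := fun hh => h (Fin.ext hh)
    have h2 : ¬ (2 * (j : ℕ) = 2 * i + 1) := by omega
    have h3 : ¬ (2 * (j : ℕ) + 1 = 2 * i + 1) := by omega
    simp only [Pi.single_apply, Fin.mk.injEq, h2, h3, h, if_false]
    decide

/-- the class of quadratic functions of the theorem -/
def Cls (f : (Fin (2 * m) → ZMod 2) → ZMod 2) : Prop :=
  ∃ μ : Fin (2 * m) → ZMod 2, L μ = 0 ∧ ∃ (b : Fin (2 * m) → ZMod 2) (c : ZMod 2),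
    ∀ x, f x = Q x + (∑ i, μ i * x i) * L x + (∑ i, b i * x i) + c

lemma inner_add {ι : Type*} [Fintype ι] (b x y : ι → ZMod 2) :
    ∑ i, b i * (x + y) i = ∑ i, b i * x i + ∑ i, b i * y i := by
  simp only [Pi.add_apply, mul_add, Finset.sum_add_distrib]

lemma inner_single {ι : Type*} [Fintype ι] [DecidableEq ι] (b : ι → ZMod 2) (a : ι) :
    ∑ i, b i * (Pi.single a (1 : ZMod 2) : ι → ZMod 2) i = b a := by
  rw [Finset.sum_eq_single a]
  · simp
  · intro c _ hb; simp [hb]
  · intro h; exact absurd (Finset.mem_univ _) h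

lemma single_inner {ι : Type*} [Fintype ι] [DecidableEq ι] (b : ι → ZMod 2) (a : ι) :
    ∑ i, (Pi.single a (1 : ZMod 2) : ι → ZMod 2) i * b i = b a := by
  rw [Finset.sum_eq_single a]
  · simp
  · intro c _ hb; simp [hb]
  · intro h; exact absurd (Finset.mem_univ _) h

lemma cls_perm {f : (Fin (2 * m) → ZMod 2) → ZMod 2} (hf : Cls f) (π : Equiv.Perm (Fin (2 * m))) :
    Cls (fun x => f (fun i => x (π i))) := by
  obtain ⟨μ, hμ, b, c, h⟩ := hf
  refine ⟨fun i => μ (π.symm i), ?_, fun i => b (π.symm i), c, ?_⟩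
  · rw [L_perm μ π.symm, hμ]
  · intro x
    show f (fun i => x (π i)) = _
    rw [h, Q_perm, L_perm]
    have e1 : ∀ β : Fin (2 * m) → ZMod 2, ∑ i, β (π.symm i) * x i = ∑ i, β i * x (π i) := by
      intro β
      rw [← Equiv.sum_comp π (fun i => β (π.symm i) * x i)]
      simp
    rw [e1, e1]

lemma cls_flat {f : (Fin (2 * m) → ZMod 2) → ZMod 2} (hf : Cls f) (k : ℕ)
    (y : Fin (2 * m) → ZMod 2) :
    (∑ x, sgn (f x + fk k x y)) * (∑ x, sgn (f x + fk k x y)) = 2 ^ m * 2 ^ m := by
  obtain ⟨μ, hμ, b, c, h⟩ := hf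
  have h2m : (2 : ℤ) ^ m * 2 ^ m = 2 ^ (Fintype.card (Fin (2 * m))) := by
    rw [Fintype.card_fin, ← pow_add]; congr 1; ring
  rw [h2m]
  apply flat_of_nondeg (fun x => f x + fk k x y)
    (fun x h => L x * L h + ∑ i, x i * h i + ((∑ i, μ i * x i) * L h + L x * ∑ i, μ i * h i) +
      ((∑ i, cf k y i * ps x i) * (∑ i, cf k y i * ps h i) +
        ∑ i, (cf k y i * ps x i) * (cf k y i * ps h i)))
  · intro x g
    simp only [h]
    rw [fk_polar, Q_polar, L_add, inner_add, inner_add, fk_zero]
    have q0 : Q (0 : Fin (2 * m) → ZMod 2) = 0 := by simp [Q]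
    have l0 : L (0 : Fin (2 * m) → ZMod 2) = 0 := by simp [L]
    rw [q0, l0]
    simp only [Pi.zero_apply, mul_zero, Finset.sum_const_zero]
    have := add_self' c
    linear_combination (-1 : ZMod 2) * this
  · intro x x' g
    have e1 : ∑ i, (x + x') i * g i = ∑ i, x i * g i + ∑ i, x' i * g i := by
      simp only [Pi.add_apply, add_mul, Finset.sum_add_distrib]
    have e2 : ∑ i, cf k y i * ps (x + x') i = ∑ i, cf k y i * ps x i + ∑ i, cf k y i * ps x' i := by
      simp only [ps_add, mul_add, Finset.sum_add_distrib]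
    have e3 : ∑ i, (cf k y i * ps (x + x') i) * (cf k y i * ps g i) =
        ∑ i, (cf k y i * ps x i) * (cf k y i * ps g i) +
          ∑ i, (cf k y i * ps x' i) * (cf k y i * ps g i) := by
      simp only [ps_add, mul_add, add_mul, Finset.sum_add_distrib]
    simp only [L_add, inner_add]
    rw [e1, e2, e3]
    ring
  · intro g hg
    by_contra hcon
    push Not at hcon
    have hz : ∀ x, L x * L g + ∑ i, x i * g i + ((∑ i, μ i * x i) * L g + L x * ∑ i, μ i * g i) +
      ((∑ i, cf k y i * ps x i) * (∑ i, cf k y i * ps g i) +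
        ∑ i, (cf k y i * ps x i) * (cf k y i * ps g i)) = 0 := by
      intro x
      rcases zmod2_cases (L x * L g + ∑ i, x i * g i + ((∑ i, μ i * x i) * L g + L x * ∑ i, μ i * g i) +
        ((∑ i, cf k y i * ps x i) * (∑ i, cf k y i * ps g i) +
          ∑ i, (cf k y i * ps x i) * (cf k y i * ps g i))) with h1 | h1
      · exact h1
      · exact absurd h1 (hcon x)
    -- the all-one vector
    have hLg : L g = 0 := by
      have := hz (one (2 * m))
      simp only [ps_one, mul_zero, zero_mul, Finset.sum_const_zero, add_zero] at this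
      rw [L_one] at this
      have e1 : ∑ i, one (2 * m) i * g i = L g := by simp [one, L]
      have e2 : ∑ i, μ i * one (2 * m) i = L μ := by simp [one, L]
      rw [e1, e2, hμ] at this
      linear_combination this
    have hLs : ∀ a, L (Pi.single a (1 : ZMod 2) : Fin (2 * m) → ZMod 2) = 1 := by
      intro a; rw [L_eq_wt, wt_single]; rfl
    have heven : ∀ i : Fin m, g ⟨2 * i, by omega⟩ + ∑ i, μ i * g i +
        (cf k y i * (∑ i, cf k y i * ps g i) + cf k y i * (cf k y i * ps g i)) = 0 := by
      intro i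
      have := hz (Pi.single ⟨2 * i, by omega⟩ 1)
      rw [single_inner, hLs, hLg] at this
      simp only [ps_single_even] at this
      simp only [mul_ite, mul_one, mul_zero, ite_mul, zero_mul, Finset.sum_ite_eq', Finset.mem_univ,
        if_true, Finset.sum_ite_eq] at this
      linear_combination this
    have hodd : ∀ i : Fin m, g ⟨2 * i + 1, by omega⟩ + ∑ i, μ i * g i +
        (cf k y i * (∑ i, cf k y i * ps g i) + cf k y i * (cf k y i * ps g i)) = 0 := by
      intro i
      have := hz (Pi.single ⟨2 * i + 1, by omega⟩ 1)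
      rw [single_inner, hLs, hLg] at this
      simp only [ps_single_odd] at this
      simp only [mul_ite, mul_one, mul_zero, ite_mul, zero_mul, Finset.sum_ite_eq', Finset.mem_univ,
        if_true, Finset.sum_ite_eq] at this
      linear_combination this
    have hps : ∀ i : Fin m, ps g i = 0 := by
      intro i
      have h1 := heven i
      have h2 := hodd i
      unfold ps
      unfold ps at h1 h2
      have h3 : g ⟨2 * i, by omega⟩ = g ⟨2 * i + 1, by omega⟩ := by
        have := h1.trans h2.symm
        linear_combination this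
      rw [h3]; exact add_self' _
    have hU : ∑ i, cf k y i * ps g i = 0 := Finset.sum_eq_zero (fun i _ => by rw [hps i, mul_zero])
    have hall : ∀ j : Fin (2 * m), g j = ∑ i, μ i * g i := by
      intro j
      have hj : (j : ℕ) / 2 < m := by omega
      rcases Nat.even_or_odd' (j : ℕ) with ⟨t, ht | ht⟩
      · have := heven ⟨(j : ℕ) / 2, hj⟩
        rw [hU, hps] at this
        have e : (⟨2 * ((j : ℕ) / 2), by omega⟩ : Fin (2 * m)) = j := by
          apply Fin.ext; simp only; omega
        simp only [e] at this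
        have h2 := add_self' (∑ i, μ i * g i)
        linear_combination this - h2
      · have := hodd ⟨(j : ℕ) / 2, hj⟩
        rw [hU, hps] at this
        have e : (⟨2 * ((j : ℕ) / 2) + 1, by omega⟩ : Fin (2 * m)) = j := by
          apply Fin.ext; simp only; omega
        simp only [e] at this
        have h2 := add_self' (∑ i, μ i * g i)
        linear_combination this - h2
    have ht : ∑ i, μ i * g i = 0 := by
      have : ∑ i, μ i * g i = ∑ i, μ i * (∑ i, μ i * g i) :=
        Finset.sum_congr rfl (fun i _ => by rw [← hall i])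
      rw [← Finset.sum_mul] at this
      have h1 : ∑ i, μ i = 0 := hμ
      rw [h1, zero_mul] at this
      exact this
    apply hg
    funext j
    rw [hall j, ht]; rfl

end conv

end Pool.Agent.Q280.KB
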