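import Mathlib
import Pool.Agent.Q280.KB.Conv

namespace Pool.Agent.Q280.KB

open Finset

set_option linter.unusedSectionVars false

section direct

variable {m : ℕ}

/-- indicator vector of a finset -/
def ind {ι : Type*} [DecidableEq ι] (S : Finset ι) : ι → ZMod 2 := fun i => if i ∈ S then 1 else 0

lemma wt_ind {ι : Type*} [Fintype ι] [DecidableEq ι] (S : Finset ι) : wt (ind S) = S.card := by
  unfold wt ind
  have : ∀ i, (if i ∈ S then (1 : ZMod 2) else 0).val = if i ∈ S then 1 else 0 := by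
    intro i; split_ifs <;> decide
  rw [Finset.sum_congr rfl (fun i _ => this i)]
  simp

lemma eq_ind {ι : Type*} [Fintype ι] [DecidableEq ι] (y : ι → ZMod 2) :
    y = ind (univ.filter (fun i => y i = 1)) := by
  funext i
  simp only [ind, Finset.mem_filter, Finset.mem_univ, true_and]
  rcases zmod2_cases (y i) with h | h <;> rw [h] <;> decide

lemma inner_ind {ι : Type*} [Fintype ι] [DecidableEq ι] (l : ι → ZMod 2) (S : Finset ι) :
    ∑ i, l i * ind S i = ∑ i ∈ S, l i := by
  simp [ind]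

/-- swapping membership adds the two unit vectors -/
lemma ind_swap {ι : Type*} [DecidableEq ι] (S : Finset ι) {a b : ι} (ha : a ∈ S) (hb : b ∉ S) :
    ind (insert b (S.erase a)) = ind S + (Pi.single a 1 + Pi.single b 1) := by
  funext i
  simp only [ind, Pi.add_apply, Pi.single_apply, Finset.mem_insert, Finset.mem_erase]
  by_cases h1 : i = a
  · subst h1
    have : i ≠ b := fun h => hb (h ▸ ha)
    have hnot : ¬ (i = b ∨ i ≠ i ∧ i ∈ S) := by
      rintro (h | ⟨h, _⟩)
      · exact this h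
      · exact h rfl
    rw [if_neg hnot, if_pos ha, if_pos rfl, if_neg this]
    decide
  · by_cases h2 : i = b
    · subst h2; simp [h1, hb]
    · by_cases h3 : i ∈ S <;> simp [h1, h2, h3]

/-- the affine description of the dual on a layer -/
lemma dual_layer (g : (Fin (2 * m) → ZMod 2) → ZMod 2)
    (hg : ∀ (a b c d : Fin (2 * m)), a ≠ b → a ≠ c → a ≠ d → b ≠ c → b ≠ d → c ≠ d →
      ∀ z : Fin (2 * m) → ZMod 2, z a + z b = 1 → z c + z d = 1 →
        g z + g (z + (Pi.single a 1 + Pi.single b 1)) + g (z + (Pi.single c 1 + Pi.single d 1)) +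
          g (z + (Pi.single a 1 + Pi.single b 1) + (Pi.single c 1 + Pi.single d 1)) = 0) (w : ℕ) :
    ∃ (l : Fin (2 * m) → ZMod 2) (c : ZMod 2), ∀ y, wt y = w → g y = c + ∑ i, l i * y i := by
  obtain ⟨l, c, h⟩ := layer_affine (fun S => g (ind S)) (by
    intro S a b c d ha hc hb hd hac hbd
    have hab : a ≠ b := fun h => hb (h ▸ ha)
    have had : a ≠ d := fun h => hd (h ▸ ha)
    have hcb : b ≠ c := fun h => hb (h ▸ hc)
    have hcd : c ≠ d := fun h => hd (h ▸ hc)
    have h1 := hg a b c d hab hac had hcb hbd hcd (ind S) (by simp [ind, ha, hb])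
      (by simp [ind, hc, hd])
    have e1 := ind_swap S ha hb
    have e2 := ind_swap S hc hd
    have hcT : c ∈ insert b (S.erase a) :=
      Finset.mem_insert_of_mem (Finset.mem_erase.mpr ⟨hac.symm, hc⟩)
    have hdT : d ∉ insert b (S.erase a) := by
      rw [Finset.mem_insert, Finset.mem_erase]
      rintro (h | ⟨_, h⟩)
      · exact hbd h.symm
      · exact hd h
    have e3 := ind_swap (insert b (S.erase a)) hcT hdT
    have e4 : insert d ((insert b (S.erase a)).erase c) =
        insert b (insert d ((S.erase a).erase c)) := by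
      rw [Finset.erase_insert_of_ne (fun (h : b = c) => hcb h), Finset.insert_comm]
    rw [e4, e1] at e3
    show g (ind S) + g (ind (insert b (S.erase a))) + g (ind (insert d (S.erase c))) +
      g (ind (insert b (insert d ((S.erase a).erase c)))) = 0
    rw [e1, e2, e3]
    exact h1) w
  refine ⟨l, c, fun y hy => ?_⟩
  have h2 := eq_ind y
  rw [h2] at hy ⊢
  rw [wt_ind] at hy
  rw [inner_ind]
  exact h _ hy

lemma fk_one_eq (hm : 1 ≤ m) (x y : Fin (2 * m) → ZMod 2) :
    fk 1 x y = ∑ i, x i * y i + ps x ⟨0, hm⟩ * ps y ⟨0, hm⟩ := by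
  unfold fk
  congr 1
  rw [Finset.sum_eq_single (⟨0, hm⟩ : Fin m)]
  · rw [Finset.sum_eq_single (⟨0, hm⟩ : Fin m)]
    · simp only [le_refl, true_and]
      rw [if_pos (by norm_num), idem, idem]
    · intro j _ hj
      have : ¬ ((j : ℕ) < 1) := fun h => hj (Fin.ext (by simp only; omega))
      simp [this]
    · intro h; exact absurd (Finset.mem_univ _) h
  · intro i _ hi
    apply Finset.sum_eq_zero
    intro j _
    have : ¬ (i ≤ j ∧ (j : ℕ) < 1) := by
      rintro ⟨h1, h2⟩
      have h3 : (i : ℕ) ≤ j := h1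
      exact hi (Fin.ext (by simp only; omega))
    rw [if_neg this]
  · intro h; exact absurd (Finset.mem_univ _) h

lemma fk_two_eq (hm : 2 ≤ m) (x y : Fin (2 * m) → ZMod 2)
    (h0 : ps y ⟨0, by omega⟩ = 1) (h1 : ps y ⟨1, hm⟩ = 1) :
    fk 2 x y = ∑ i, x i * y i + (ps x ⟨0, by omega⟩ + ps x ⟨1, hm⟩ +
      ps x ⟨0, by omega⟩ * ps x ⟨1, hm⟩) := by
  unfold fk
  congr 1
  set i0 : Fin m := ⟨0, by omega⟩ with hi0
  set i1 : Fin m := ⟨1, hm⟩ with hi1
  have hne : i0 ≠ i1 := by simp [hi0, hi1]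
  have hsub : ∀ (F : Fin m → ZMod 2), (∀ i, i ≠ i0 → i ≠ i1 → F i = 0) →
      ∑ i, F i = F i0 + F i1 := by
    intro F hF
    rw [← Finset.sum_pair hne]
    symm
    apply Finset.sum_subset (Finset.subset_univ _)
    intro i _ hi
    rw [Finset.mem_insert, Finset.mem_singleton, not_or] at hi
    exact hF i hi.1 hi.2
  have hbig : ∀ i : Fin m, i ≠ i0 → i ≠ i1 → 2 ≤ (i : ℕ) := by
    intro i h0 h1
    by_contra hcon
    have : (i : ℕ) = 0 ∨ (i : ℕ) = 1 := by omega
    rcases this with h | h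
    · exact h0 (Fin.ext h)
    · exact h1 (Fin.ext h)
  rw [hsub]
  · rw [hsub, hsub]
    · have a1 : i0 ≤ i0 ∧ (i0 : ℕ) < 2 := ⟨le_refl _, by simp [hi0]⟩
      have a2 : i0 ≤ i1 ∧ (i1 : ℕ) < 2 := ⟨by simp [hi0, hi1, Fin.le_def], by simp [hi1]⟩
      have a3 : ¬ (i1 ≤ i0 ∧ (i0 : ℕ) < 2) := by
        rintro ⟨h, _⟩
        have : (i1 : ℕ) ≤ i0 := h
        simp [hi0, hi1] at this
      have a4 : i1 ≤ i1 ∧ (i1 : ℕ) < 2 := ⟨le_refl _, by simp [hi1]⟩
      rw [if_pos a1, if_pos a2, if_neg a3, if_pos a4, h0, h1]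
      have q0 := idem (ps x i0)
      have q1 := idem (ps x i1)
      linear_combination q0 + q1
    · intro i h0' h1'
      have := hbig i h0' h1'
      rw [if_neg (by rintro ⟨_, h⟩; omega)]
    · intro i h0' h1'
      have := hbig i h0' h1'
      rw [if_neg (by rintro ⟨_, h⟩; omega)]
  · intro i h0' h1'
    have := hbig i h0' h1'
    apply Finset.sum_eq_zero
    intro j _
    rw [if_neg]
    rintro ⟨h, h'⟩
    have : (i : ℕ) ≤ j := h
    omega

/-- bentness extracted from the first transform -/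
lemma bent_of_first (hm : 1 ≤ m) (f : (Fin (2 * m) → ZMod 2) → ZMod 2)
    (h : ∀ y, (∑ x, sgn (f x + fk 1 x y)) = 2 ^ m ∨ (∑ x, sgn (f x + fk 1 x y)) = -2 ^ m)
    (y : Fin (2 * m) → ZMod 2) : W f y = 2 ^ m ∨ W f y = -2 ^ m := by
  set a : Fin (2 * m) := ⟨0, by omega⟩ with ha
  set b : Fin (2 * m) := ⟨1, by omega⟩ with hb
  have hab : a ≠ b := by simp [ha, hb]
  set α : Fin (2 * m) → ZMod 2 := Pi.single a 1 + Pi.single b 1 with hα
  have hps : ∀ z : Fin (2 * m) → ZMod 2, ps z ⟨0, hm⟩ = z a + z b := by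
    intro z; simp [ps, ha, hb]
  have hin : ∀ z : Fin (2 * m) → ZMod 2, ∑ i, z i * α i = z a + z b := by
    intro z
    rw [hα, inner_add, inner_single, inner_single]
  rcases zmod2_cases (y a + y b) with h0 | h1
  · have : ∀ x, f x + fk 1 x y = f x + ∑ i, x i * y i := by
      intro x
      rw [fk_one_eq hm, hps y, h0, mul_zero, add_zero]
    have h2 := h y
    rw [Finset.sum_congr rfl (fun x _ => by rw [this x])] at h2
    exact h2
  · have hy' : (y + α) a + (y + α) b = 1 := by
      simp only [hα, Pi.add_apply, Pi.single_eq_same, Pi.single_eq_of_ne hab,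
        Pi.single_eq_of_ne hab.symm]
      have : y a + (1 + 0) + (y b + (0 + 1)) = (y a + y b) + (1 + 1) := by ring
      rw [this, h1]; decide
    have : ∀ x, f x + fk 1 x (y + α) = f x + ∑ i, x i * y i := by
      intro x
      rw [fk_one_eq hm, hps (y + α), hy', inner_add, hin, hps x]
      have := add_self' (x a + x b)
      linear_combination this
    have h2 := h (y + α)
    rw [Finset.sum_congr rfl (fun x _ => by rw [this x])] at h2
    exact h2

lemma sign_ident (p q : ZMod 2) :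
    2 * sgn (p + q + p * q) = - 1 + sgn p + sgn q + sgn (p + q) := by
  revert p q; decide

lemma four_signs (s t u v : ZMod 2)
    (h : -sgn s + sgn t + sgn u + sgn v = 2 ∨ -sgn s + sgn t + sgn u + sgn v = -2) :
    s + t + u + v = 0 := by
  revert s t u v; decide

/-- the second order condition for the dual -/
lemma second_order (hm : 2 ≤ m) (f g : (Fin (2 * m) → ZMod 2) → ZMod 2)
    (hfg : ∀ y, W f y = 2 ^ m * sgn (g y))
    (h : ∀ π : Equiv.Perm (Fin (2 * m)), ∀ y,
      (∑ x, sgn (f (fun i => x (π i)) + fk 2 x y)) = 2 ^ m ∨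
        (∑ x, sgn (f (fun i => x (π i)) + fk 2 x y)) = -2 ^ m)
    (a b c d : Fin (2 * m)) (hab : a ≠ b) (hac : a ≠ c) (had : a ≠ d) (hbc : b ≠ c) (hbd : b ≠ d)
    (hcd : c ≠ d) (z : Fin (2 * m) → ZMod 2) (hz1 : z a + z b = 1) (hz2 : z c + z d = 1) :
    g z + g (z + (Pi.single a 1 + Pi.single b 1)) + g (z + (Pi.single c 1 + Pi.single d 1)) +
      g (z + (Pi.single a 1 + Pi.single b 1) + (Pi.single c 1 + Pi.single d 1)) = 0 := by
  -- the permutation
  obtain ⟨σ, hσ⟩ := Equiv.Perm.exists_extending_pair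
    (fun i : Fin 4 => (⟨(i : ℕ), by omega⟩ : Fin (2 * m))) (![a, b, c, d])
    (by intro i j hij; simpa [Fin.ext_iff] using hij)
    (by
      intro i j hij
      fin_cases i <;> fin_cases j <;> simp_all)
  have s0 : σ ⟨0, by omega⟩ = a := hσ 0
  have s1 : σ ⟨1, by omega⟩ = b := hσ 1
  have s2 : σ ⟨2, by omega⟩ = c := hσ 2
  have s3 : σ ⟨3, by omega⟩ = d := hσ 3
  have p0 : ∀ x : Fin (2 * m) → ZMod 2, ps (fun i => x (σ i)) ⟨0, by omega⟩ = x a + x b := by
    intro x
    have : ps (fun i => x (σ i)) ⟨0, by omega⟩ =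
      x (σ ⟨0, by omega⟩) + x (σ ⟨1, by omega⟩) := rfl
    rw [this, s0, s1]
  have p1 : ∀ x : Fin (2 * m) → ZMod 2, ps (fun i => x (σ i)) ⟨1, hm⟩ = x c + x d := by
    intro x
    have : ps (fun i => x (σ i)) ⟨1, hm⟩ =
      x (σ ⟨2, by omega⟩) + x (σ ⟨3, by omega⟩) := rfl
    rw [this, s2, s3]
  have h1 := h σ.symm (fun i => z (σ i))
  have hre : ∑ x : Fin (2 * m) → ZMod 2, sgn (f (fun i => x (σ.symm i)) + fk 2 x (fun i => z (σ i)))
      = ∑ x, sgn (f x + (∑ i, x i * z i + ((x a + x b) + (x c + x d) + (x a + x b) * (x c + x d)))) := by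
    rw [← Equiv.sum_comp (Equiv.arrowCongr σ.symm (Equiv.refl (ZMod 2)))
      (fun x => sgn (f (fun i => x (σ.symm i)) + fk 2 x (fun i => z (σ i))))]
    apply Finset.sum_congr rfl
    intro x _
    have e1 : (Equiv.arrowCongr σ.symm (Equiv.refl (ZMod 2))) x = fun i => x (σ i) := by
      funext i; simp [Equiv.arrowCongr]
    rw [e1]
    have e2 : (fun i => (fun i => x (σ i)) (σ.symm i)) = x := by funext i; simp
    rw [e2, fk_two_eq hm _ _ (by rw [p0, hz1]) (by rw [p1, hz2]), p0, p1]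
    have e3 : ∑ i, x (σ i) * z (σ i) = ∑ i, x i * z i := Equiv.sum_comp σ (fun i => x i * z i)
    rw [e3]
  rw [hre] at h1
  -- expand
  have hin : ∀ (p q : Fin (2 * m)) (x : Fin (2 * m) → ZMod 2),
      ∑ i, x i * ((Pi.single p 1 + Pi.single q 1 : Fin (2 * m) → ZMod 2)) i = x p + x q := by
    intro p q x
    rw [inner_add, inner_single, inner_single]
  have hexp : 2 * ∑ x, sgn (f x + (∑ i, x i * z i +
      ((x a + x b) + (x c + x d) + (x a + x b) * (x c + x d)))) =
      - W f z + W f (z + (Pi.single a 1 + Pi.single b 1)) +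
        W f (z + (Pi.single c 1 + Pi.single d 1)) +
        W f (z + (Pi.single a 1 + Pi.single b 1) + (Pi.single c 1 + Pi.single d 1)) := by
    unfold W
    rw [Finset.mul_sum, ← Finset.sum_neg_distrib, ← Finset.sum_add_distrib,
      ← Finset.sum_add_distrib, ← Finset.sum_add_distrib]
    apply Finset.sum_congr rfl
    intro x _
    have i1 : ∑ i, x i * (z + (Pi.single a 1 + Pi.single b 1 : Fin (2 * m) → ZMod 2)) i = ∑ i, x i * z i + (x a + x b) := by
      rw [inner_add, hin]
    have i2 : ∑ i, x i * (z + (Pi.single c 1 + Pi.single d 1 : Fin (2 * m) → ZMod 2)) i = ∑ i, x i * z i + (x c + x d) := by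
      rw [inner_add, hin]
    have i3 : ∑ i, x i * (z + (Pi.single a 1 + Pi.single b 1 : Fin (2 * m) → ZMod 2) +
        (Pi.single c 1 + Pi.single d 1 : Fin (2 * m) → ZMod 2)) i =
        ∑ i, x i * z i + (x a + x b) + (x c + x d) := by
      rw [inner_add, hin, i1]
    rw [i1, i2, i3]
    have e := sign_ident (x a + x b) (x c + x d)
    have f1 : sgn (f x + (∑ i, x i * z i + (x a + x b + (x c + x d) + (x a + x b) * (x c + x d)))) =
        sgn (f x + ∑ i, x i * z i) * sgn (x a + x b + (x c + x d) + (x a + x b) * (x c + x d)) := by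
      rw [← sgn_add]; congr 1; ring
    have f2 : sgn (f x + (∑ i, x i * z i + (x a + x b))) =
        sgn (f x + ∑ i, x i * z i) * sgn (x a + x b) := by
      rw [← sgn_add]; congr 1; ring
    have f3 : sgn (f x + (∑ i, x i * z i + (x c + x d))) =
        sgn (f x + ∑ i, x i * z i) * sgn (x c + x d) := by
      rw [← sgn_add]; congr 1; ring
    have f4 : sgn (f x + (∑ i, x i * z i + (x a + x b) + (x c + x d))) =
        sgn (f x + ∑ i, x i * z i) * sgn (x a + x b + (x c + x d)) := by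
      rw [← sgn_add]; congr 1; ring
    rw [f1, f2, f3, f4]
    have : 2 * (sgn (f x + ∑ i, x i * z i) *
        sgn (x a + x b + (x c + x d) + (x a + x b) * (x c + x d))) =
        sgn (f x + ∑ i, x i * z i) * (2 * sgn (x a + x b + (x c + x d) + (x a + x b) * (x c + x d))) := by
      ring
    rw [this, e]; ring
  have hpos : (0 : ℤ) < 2 ^ m := by positivity
  rw [hfg, hfg, hfg, hfg] at hexp
  apply four_signs
  rcases h1 with h1 | h1
  · left
    rw [h1] at hexp
    have : (2 : ℤ) ^ m * (-sgn (g z) + sgn (g (z + (Pi.single a 1 + Pi.single b 1))) +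
        sgn (g (z + (Pi.single c 1 + Pi.single d 1))) +
        sgn (g (z + (Pi.single a 1 + Pi.single b 1) + (Pi.single c 1 + Pi.single d 1)))) =
        2 ^ m * 2 := by linarith
    exact mul_left_cancel₀ hpos.ne' this
  · right
    rw [h1] at hexp
    have : (2 : ℤ) ^ m * (-sgn (g z) + sgn (g (z + (Pi.single a 1 + Pi.single b 1))) +
        sgn (g (z + (Pi.single c 1 + Pi.single d 1))) +
        sgn (g (z + (Pi.single a 1 + Pi.single b 1) + (Pi.single c 1 + Pi.single d 1)))) =
        2 ^ m * (-2) := by linarith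
    exact mul_left_cancel₀ hpos.ne' this

/-- the main direction for `m ≥ 2` -/
lemma cls_of_two (hm : 2 ≤ m) (f : (Fin (2 * m) → ZMod 2) → ZMod 2)
    (h1 : ∀ y, (∑ x, sgn (f x + fk 1 x y)) = 2 ^ m ∨ (∑ x, sgn (f x + fk 1 x y)) = -2 ^ m)
    (h2 : ∀ π : Equiv.Perm (Fin (2 * m)), ∀ y,
      (∑ x, sgn (f (fun i => x (π i)) + fk 2 x y)) = 2 ^ m ∨
        (∑ x, sgn (f (fun i => x (π i)) + fk 2 x y)) = -2 ^ m) : Cls f := by
  have hbent := bent_of_first (by omega : 1 ≤ m) f h1
  -- the dual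
  let g : (Fin (2 * m) → ZMod 2) → ZMod 2 := fun y => if W f y = 2 ^ m then 0 else 1
  have hfg : ∀ y, W f y = 2 ^ m * sgn (g y) := by
    intro y
    rcases hbent y with h | h
    · simp only [g, h, if_true, sgn]; ring
    · have hne : W f y ≠ 2 ^ m := by
        rw [h]; have : (0 : ℤ) < 2 ^ m := by positivity
        omega
      simp only [g, hne, if_false, sgn, one_ne_zero]
      rw [h]; ring
  have hso := second_order hm f g hfg h2
  obtain ⟨l0, c0, hl0⟩ := dual_layer g hso m
  obtain ⟨l1, c1, hl1⟩ := dual_layer g hso (m - 1)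
  -- normalise
  let f' : (Fin (2 * m) → ZMod 2) → ZMod 2 := fun x => f (x + l0) + c0
  let g' : (Fin (2 * m) → ZMod 2) → ZMod 2 := fun y => g y + (c0 + ∑ i, l0 i * y i)
  have hfg' : ∀ y, W f' y = 2 ^ m * sgn (g' y) := by
    intro y
    simp only [g']
    rw [sgn_add, ← mul_assoc, ← hfg]
    unfold W
    rw [← Equiv.sum_comp (Equiv.addRight l0) (fun x => sgn (f x + ∑ i, x i * y i)), Finset.sum_mul]
    apply Finset.sum_congr rfl
    intro x _
    rw [← sgn_add]
    congr 1
    simp only [f', Equiv.coe_addRight]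
    have e1 : ∑ i, (x + l0) i * y i = ∑ i, x i * y i + ∑ i, l0 i * y i := by
      simp only [Pi.add_apply, add_mul, Finset.sum_add_distrib]
    rw [e1]
    have := add_self' (∑ i, l0 i * y i)
    linear_combination (-1 : ZMod 2) * this
  have h0' : ∀ y, wt y = m → g' y = 0 := by
    intro y hy
    simp only [g']
    rw [hl0 y hy, add_self']
  have h1' : ∀ y, wt y + 1 = m → g' y = (c0 + c1) + ∑ i, (l0 + l1) i * y i := by
    intro y hy
    simp only [g']
    rw [hl1 y (by omega)]
    have e1 : ∑ i, (l0 + l1) i * y i = ∑ i, l0 i * y i + ∑ i, l1 i * y i := by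
      simp only [Pi.add_apply, add_mul, Finset.sum_add_distrib]
    rw [e1]; ring
  obtain ⟨hLν, hx⟩ := core hm f' g' hfg' h0' (l0 + l1) (c0 + c1) h1'
  set ν := l0 + l1 with hν
  set κ := c0 + c1 + Q ν with hκ
  refine ⟨ν, hLν, fun i => l0 i + L l0 + (∑ i, ν i * l0 i) + κ + L l0 * ν i,
    Q l0 + L l0 * (∑ i, ν i * l0 i) + L l0 * κ + c0, ?_⟩
  intro x
  have h3 := hx (x + l0)
  simp only [f'] at h3
  have e0 : x + l0 + l0 = x := by rw [add_assoc, addself_fun, add_zero]
  rw [e0, Q_polar, L_add, inner_add] at h3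
  have e1 : ∑ i, (l0 i + L l0 + (∑ i, ν i * l0 i) + κ + L l0 * ν i) * x i =
      ∑ i, x i * l0 i + L l0 * L x + (∑ i, ν i * l0 i) * L x + κ * L x +
        L l0 * ∑ i, ν i * x i := by
    have hLx : L x = ∑ i, x i := rfl
    rw [hLx, Finset.mul_sum, Finset.mul_sum, Finset.mul_sum, Finset.mul_sum,
      ← Finset.sum_add_distrib, ← Finset.sum_add_distrib, ← Finset.sum_add_distrib,
      ← Finset.sum_add_distrib]
    apply Finset.sum_congr rfl
    intro i _
    ring
  rw [e1]
  have := add_self' c0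
  linear_combination h3 - this

end direct

end Pool.Agent.Q280.KB
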